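import Mathlib
import Pool.Agent.Helper1.PDF2
import Pool.Agent.Helper1.PDF3

set_option autoImplicit false

namespace Pool.Agent.Results.MP_b7e8d8_co.Windmill

open Pool.Agent.Helper1.PDF

/-- The graph `B(n, r, m)`: `m` copies of `K_n` sharing a common `K_r`. The vertices `Sum.inl i`
are the `r` common vertices; `Sum.inr (i, j)` is the `j`-th of the `n - r` other vertices of the
`i`-th copy. Two distinct vertices are adjacent unless they are non-common vertices of different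
copies. -/
def B (n r m : ℕ) : SimpleGraph (Fin r ⊕ (Fin m × Fin (n - r))) where
  Adj u v := u ≠ v ∧ ∀ p q, u = Sum.inr p → v = Sum.inr q → p.1 = q.1
  symm := ⟨by
    rintro u v ⟨h1, h2⟩
    exact ⟨h1.symm, fun p q hp hq => (h2 q p hq hp).symm⟩⟩
  loopless := ⟨fun _ h => h.1 rfl⟩

/-- `G` is graceful: there is an injective labelling of the vertices by numbers `0, ..., q`, where
`q` is the number of edges, such that the values `|f u - f v|` of the edges are distinct. -/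
def Graceful {V : Type} (G : SimpleGraph V) : Prop :=
  ∃ f : V → ℕ, Function.Injective f ∧ (∀ v, f v ≤ G.edgeSet.ncard) ∧
    ∀ a b c d, G.Adj a b → G.Adj c d →
      |(f a : ℤ) - (f b : ℤ)| = |(f c : ℤ) - (f d : ℤ)| → s(a, b) = s(c, d)

theorem graceful_of_pdf {m : ℕ} (h : HasPDF m) : Graceful (B 4 1 m) := by
  classical
  obtain ⟨x, y, z, a, b, c, hp⟩ := h.fin
  obtain ⟨hinj, hr⟩ := hp.val
  obtain ⟨-, ha, hb, hc, -⟩ := hp
  -- the labelling
  let f : Fin 1 ⊕ (Fin m × Fin (4 - 1)) → ℕ := Sum.elim (fun _ => 0)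
    (fun p => if p.2.1 = 0 then x p.1 else if p.2.1 = 1 then a p.1 else c p.1)
  -- the canonical edge of a value
  let E : Fin m × Fin 6 → Sym2 (Fin 1 ⊕ (Fin m × Fin (4 - 1))) := fun p =>
    match p.2 with
    | 0 => s(Sum.inl 0, Sum.inr (p.1, 0))
    | 1 => s(Sum.inr (p.1, 0), Sum.inr (p.1, 1))
    | 2 => s(Sum.inr (p.1, 1), Sum.inr (p.1, 2))
    | 3 => s(Sum.inl 0, Sum.inr (p.1, 1))
    | 4 => s(Sum.inr (p.1, 0), Sum.inr (p.1, 2))
    | 5 => s(Sum.inl 0, Sum.inr (p.1, 2))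
  let D : Sym2 (Fin 1 ⊕ (Fin m × Fin (4 - 1))) → ℤ :=
    Sym2.lift ⟨fun u v => |(f u : ℤ) - (f v : ℤ)|, fun u v => abs_sub_comm _ _⟩
  have hfx : ∀ i, f (Sum.inr (i, 0)) = x i := fun i => rfl
  have hfa : ∀ i, f (Sum.inr (i, 1)) = a i := fun i => rfl
  have hfc : ∀ i, f (Sum.inr (i, 2)) = c i := fun i => rfl
  have hf0 : ∀ j, f (Sum.inl j) = 0 := fun j => rfl
  have hD : ∀ p, D (E p) = (val x y z a b c p : ℤ) := by
    rintro ⟨i, k⟩
    have h1 := ha i
    have h2 := hb i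
    have h3 := hc i
    fin_cases k
    · show |((f (Sum.inl 0) : ℕ) : ℤ) - (f (Sum.inr (i, 0)) : ℤ)| = (x i : ℤ)
      rw [hf0, hfx]
      simp
    · show |((f (Sum.inr (i, 0)) : ℕ) : ℤ) - (f (Sum.inr (i, 1)) : ℤ)| = (y i : ℤ)
      rw [hfx, hfa, ← h1]
      push_cast
      rw [abs_sub_comm]
      simp
    · show |((f (Sum.inr (i, 1)) : ℕ) : ℤ) - (f (Sum.inr (i, 2)) : ℤ)| = (z i : ℤ)
      rw [hfa, hfc, ← h1, ← h3, ← h2]
      push_cast
      rw [abs_sub_comm]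
      have e : (x i : ℤ) + (y i + z i) - (x i + y i) = z i := by ring
      rw [e]
      simp
    · show |((f (Sum.inl 0) : ℕ) : ℤ) - (f (Sum.inr (i, 1)) : ℤ)| = (a i : ℤ)
      rw [hf0, hfa]
      simp
    · show |((f (Sum.inr (i, 0)) : ℕ) : ℤ) - (f (Sum.inr (i, 2)) : ℤ)| = (b i : ℤ)
      rw [hfx, hfc, ← h3]
      push_cast
      rw [abs_sub_comm]
      simp
    · show |((f (Sum.inl 0) : ℕ) : ℤ) - (f (Sum.inr (i, 2)) : ℤ)| = (c i : ℤ)
      rw [hf0, hfc]
      simp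
  have hEinj : Function.Injective E := by
    intro p q hpq
    apply hinj
    have h1 := hD p
    rw [hpq, hD q] at h1
    exact_mod_cast h1.symm
  have hE : ∀ u v, (B 4 1 m).Adj u v → ∃ p, s(u, v) = E p := by
    rintro (u | ⟨i, k⟩) (v | ⟨j, l⟩) hadj
    · exact absurd (congrArg Sum.inl (Subsingleton.elim u v)) hadj.1
    · obtain rfl : u = 0 := Subsingleton.elim _ _
      fin_cases l
      · exact ⟨(j, 0), rfl⟩
      · exact ⟨(j, 3), rfl⟩
      · exact ⟨(j, 5), rfl⟩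
    · obtain rfl : v = 0 := Subsingleton.elim _ _
      fin_cases k
      · exact ⟨(i, 0), Sym2.eq_swap⟩
      · exact ⟨(i, 3), Sym2.eq_swap⟩
      · exact ⟨(i, 5), Sym2.eq_swap⟩
    · have hij : i = j := hadj.2 (i, k) (j, l) rfl rfl
      subst hij
      have hne := hadj.1
      fin_cases k <;> fin_cases l
      · exact absurd rfl hne
      · exact ⟨(i, 1), rfl⟩
      · exact ⟨(i, 4), rfl⟩
      · exact ⟨(i, 1), Sym2.eq_swap⟩
      · exact absurd rfl hne
      · exact ⟨(i, 2), rfl⟩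
      · exact ⟨(i, 4), Sym2.eq_swap⟩
      · exact ⟨(i, 2), Sym2.eq_swap⟩
      · exact absurd rfl hne
  have hadjE : ∀ p, E p ∈ (B 4 1 m).edgeSet := by
    rintro ⟨i, k⟩
    fin_cases k
    · exact ⟨by simp, by simp⟩
    · exact ⟨by simp, by simp⟩
    · exact ⟨by simp, by simp⟩
    · exact ⟨by simp, by simp⟩
    · exact ⟨by simp, by simp⟩
    · exact ⟨by simp, by simp⟩
  have hcard : 6 * m ≤ (B 4 1 m).edgeSet.ncard := by
    have h1 : (Set.range E).ncard = 6 * m := by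
      rw [← Set.image_univ, Set.ncard_image_of_injective _ hEinj, Set.ncard_univ,
        Nat.card_eq_fintype_card]
      simp [mul_comm]
    rw [← h1]
    apply Set.ncard_le_ncard _ (Set.toFinite _)
    rintro _ ⟨p, rfl⟩
    exact hadjE p
  have hval0 : ∀ i, val x y z a b c (i, 0) = x i := fun _ => rfl
  have hval3 : ∀ i, val x y z a b c (i, 3) = a i := fun _ => rfl
  have hval5 : ∀ i, val x y z a b c (i, 5) = c i := fun _ => rfl
  -- every non-hub label is a value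
  have hlab : ∀ (i : Fin m) (k : Fin (4 - 1)), ∃ t : Fin 6,
      f (Sum.inr (i, k)) = val x y z a b c (i, t) ∧ t = ![0, 3, 5] k := by
    intro i k
    fin_cases k
    · exact ⟨0, rfl, rfl⟩
    · exact ⟨3, rfl, rfl⟩
    · exact ⟨5, rfl, rfl⟩
  have hcode : Function.Injective (![0, 3, 5] : Fin (4 - 1) → Fin 6) := by decide
  refine ⟨f, ?_, ?_, ?_⟩
  · rintro (u | ⟨i, k⟩) (v | ⟨j, l⟩) he
    · exact congrArg Sum.inl (Subsingleton.elim u v)
    · obtain ⟨t, ht, -⟩ := hlab j l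
      have h1 := (hr (j, t)).1
      rw [hf0, ht] at he
      omega
    · obtain ⟨t, ht, -⟩ := hlab i k
      have h1 := (hr (i, t)).1
      rw [hf0, ht] at he
      omega
    · obtain ⟨t, ht, ht'⟩ := hlab i k
      obtain ⟨t2, ht2, ht2'⟩ := hlab j l
      rw [ht, ht2] at he
      have h1 := hinj he
      rw [Prod.mk.injEq] at h1
      obtain ⟨rfl, h2⟩ := h1
      rw [ht', ht2'] at h2
      rw [hcode h2]
  · rintro (v | ⟨i, k⟩)
    · rw [hf0]
      exact Nat.zero_le _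
    · obtain ⟨t, ht, -⟩ := hlab i k
      rw [ht]
      exact (hr (i, t)).2.trans hcard
  · intro u v u' v' h1 h2 h3
    obtain ⟨p, hp⟩ := hE u v h1
    obtain ⟨p', hp'⟩ := hE u' v' h2
    have h4 : D s(u, v) = D s(u', v') := h3
    rw [hp, hp', hD, hD] at h4
    have h5 : p = p' := hinj (by exact_mod_cast h4)
    rw [hp, hp', h5]

theorem pdf_all (m : ℕ) (hm : 4 ≤ m) : HasPDF m := by
  have h : m = 4 ∨ m = 5 ∨ m = 6 ∨ m = 7 ∨ m = 8 ∨ ∃ k, m = 9 + 6 * k ∨ m = 10 + 6 * k ∨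
      m = 11 + 6 * k ∨ m = 12 + 6 * k ∨ m = 13 + 6 * k ∨ m = 14 + 6 * k := by
    by_cases h9 : m < 9
    · omega
    · have : ∃ k, m = 9 + 6 * k ∨ m = 10 + 6 * k ∨
        m = 11 + 6 * k ∨ m = 12 + 6 * k ∨ m = 13 + 6 * k ∨ m = 14 + 6 * k :=
        ⟨(m - 9) / 6, by omega⟩
      exact Or.inr (Or.inr (Or.inr (Or.inr (Or.inr this))))
  rcases h with rfl | rfl | rfl | rfl | rfl | ⟨k, rfl | rfl | rfl | rfl | rfl | rfl⟩
  · exact f4_ok.pdf 0
  · exact f5_ok.pdf 0
  · exact f6_ok.pdf 0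
  · exact f7_ok.pdf 0
  · exact f8_ok.pdf 0
  · exact f9_ok.pdf k
  · exact f10_ok.pdf k
  · exact f11_ok.pdf k
  · exact f12_ok.pdf k
  · exact f13_ok.pdf k
  · exact f14_ok.pdf k

/-- Bermond's conjecture (1979): `m` copies of `K_4` sharing one vertex form a graceful graph for
every `m ≥ 4`. -/
theorem result : ∀ m : ℕ, 4 ≤ m → Graceful (B 4 1 m) :=
  fun m hm => graceful_of_pdf (pdf_all m hm)

end Pool.Agent.Results.MP_b7e8d8_co.Windmill
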